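import Pool.Agent.U671.PG.Geo

/-!
# The projective plane of a planar neofield and its oval `1 / y = 1 / x + 1`
-/

set_option autoImplicit false

namespace Pool.Agent.U37.NF

open Finset Pool.Agent.N606.ST Pool.Agent.U671.PG

open scoped Classical

variable {K : Type} [CommGroupWithZero K] [Fintype K]

/-- planar neofields with commutative multiplication -/
structure Neofield (add : K → K → K) : Prop where
  zl : ∀ a, add 0 a = a
  zr : ∀ a, add a 0 = a
  ll : ∀ a b, ∃! x, add a x = b
  lr : ∀ a b, ∃! x, add x a = b
  ds : ∀ a b c, add a b * c = add (a * c) (b * c)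
  pl : ∀ x x' y y', x ≠ x' → ∃! t : K × K, y = add (x * t.1) t.2 ∧ y' = add (x' * t.1) t.2

/-- points and lines -/
abbrev V (K : Type) : Type := (K × K) ⊕ Option K

/-- incidence -/
def On (add : K → K → K) : V K → V K → Prop
  | Sum.inl P, Sum.inl l => P.2 = add (P.1 * l.1) l.2
  | Sum.inl P, Sum.inr (some a) => P.1 = a
  | Sum.inl _, Sum.inr none => False
  | Sum.inr (some s), Sum.inl l => s = l.1
  | Sum.inr (some _), Sum.inr (some _) => False
  | Sum.inr (some _), Sum.inr none => True
  | Sum.inr none, Sum.inl _ => False
  | Sum.inr none, Sum.inr _ => True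

/-- the line `l` -/
noncomputable def ln (add : K → K → K) (l : V K) : Finset (V K) :=
  univ.filter fun P => On add P l

/-- the lines -/
noncomputable def lines (add : K → K → K) : Finset (Finset (V K)) := univ.image (ln add)

/-- the parametrisation of the oval -/
noncomputable def par (add : K → K → K) : Option K → V K
  | none => Sum.inl (0, 0)
  | some a => if a = 0 then Sum.inr (some 0) else if add a 1 = 0 then Sum.inr none else
      Sum.inl (a⁻¹, (add a 1)⁻¹)

/-- the oval -/
noncomputable def ov (add : K → K → K) : Finset (V K) := univ.image (par add)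

variable {add : K → K → K} {n : ℕ}

theorem mem_ln {P l : V K} : P ∈ ln add l ↔ On add P l := by simp [ln]

theorem mem_lines {b : Finset (V K)} : b ∈ lines add ↔ ∃ l, b = ln add l := by
  simp [lines, eq_comm]

theorem join (h : Neofield add) : ∀ P Q : V K, P ≠ Q → ∃! l, On add P l ∧ On add Q l := by
  have key1 : ∀ P Q : K × K, P ≠ Q → ∃! l, On add (Sum.inl P) l ∧ On add (Sum.inl Q) l := by
    rintro ⟨x, y⟩ ⟨x', y'⟩ hPQ
    by_cases hx : x = x'
    · subst hx
      refine ⟨Sum.inr (some x), ⟨rfl, rfl⟩, ?_⟩
      rintro (⟨m, k⟩ | (_ | a)) ⟨h1, h2⟩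
      · exfalso
        simp only [On] at h1 h2
        exact hPQ (by rw [h1, h2])
      · exact h1.elim
      · simp only [On] at h1
        rw [h1]
    · obtain ⟨t, ⟨h1, h2⟩, h3⟩ := h.pl x x' y y' hx
      refine ⟨Sum.inl t, ⟨h1, h2⟩, ?_⟩
      rintro (⟨m, k⟩ | (_ | a)) ⟨h4, h5⟩
      · simp only [On] at h4 h5
        rw [h3 (m, k) ⟨h4, h5⟩]
      · exact h4.elim
      · simp only [On] at h4 h5
        exact (hx (h4.trans h5.symm)).elim
  have key2 : ∀ (P : K × K) (s : K),
      ∃! l, On add (Sum.inl P) l ∧ On add (Sum.inr (some s)) l := by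
    rintro ⟨x, y⟩ s
    obtain ⟨k, hk, hu⟩ := h.ll (x * s) y
    refine ⟨Sum.inl (s, k), ⟨hk.symm, rfl⟩, ?_⟩
    rintro (⟨m, k'⟩ | (_ | a)) ⟨h4, h5⟩
    · simp only [On] at h4 h5
      subst h5
      rw [hu k' h4.symm]
    · exact h4.elim
    · exact h5.elim
  have key3 : ∀ P : K × K, ∃! l, On add (Sum.inl P) l ∧ On add (Sum.inr none) l := by
    rintro ⟨x, y⟩
    refine ⟨Sum.inr (some x), ⟨rfl, trivial⟩, ?_⟩
    rintro (⟨m, k'⟩ | (_ | a)) ⟨h4, h5⟩
    · exact h5.elim
    · exact h4.elim
    · simp only [On] at h4
      rw [h4]
  have key4 : ∀ s s' : K, s ≠ s' →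
      ∃! l, On add (Sum.inr (some s)) l ∧ On add (Sum.inr (some s')) l := by
    intro s s' hs
    refine ⟨Sum.inr none, ⟨trivial, trivial⟩, ?_⟩
    rintro (⟨m, k'⟩ | (_ | a)) ⟨h4, h5⟩
    · simp only [On] at h4 h5
      exact (hs (h4.trans h5.symm)).elim
    · rfl
    · exact h4.elim
  have key5 : ∀ s : K, ∃! l, On add (Sum.inr (some s)) l ∧ On add (Sum.inr none) l := by
    intro s
    refine ⟨Sum.inr none, ⟨trivial, trivial⟩, ?_⟩
    rintro (⟨m, k'⟩ | (_ | a)) ⟨h4, h5⟩
    · exact h5.elim
    · rfl
    · exact h4.elim
  have sw : ∀ P Q : V K, (∃! l, On add P l ∧ On add Q l) → ∃! l, On add Q l ∧ On add P l := by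
    intro P Q hPQ
    simpa only [and_comm] using hPQ
  rintro (P | (_ | s)) (Q | (_ | s')) hPQ
  · exact key1 P Q (fun e => hPQ (by rw [e]))
  · exact key3 P
  · exact key2 P s'
  · exact sw _ _ (key3 Q)
  · exact (hPQ rfl).elim
  · exact sw _ _ (key5 s')
  · exact sw _ _ (key2 Q s)
  · exact key5 s
  · exact key4 s s' (fun e => hPQ (by rw [e]))

theorem card_ln (h : Neofield add) (l : V K) : (ln add l).card = Fintype.card K + 1 := by
  rcases l with (⟨m, k⟩ | (_ | a))
  · have : ln add (Sum.inl (m, k)) =
        insert (Sum.inr (some m)) (univ.image fun x : K => (Sum.inl (x, add (x * m) k) : V K)) := by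
      ext P
      rw [mem_ln, mem_insert, mem_image]
      rcases P with (⟨x, y⟩ | (_ | s))
      · simp only [On, mem_univ, true_and, reduceCtorEq, false_or, Sum.inl.injEq, Prod.mk.injEq]
        constructor
        · intro h1
          exact ⟨x, rfl, h1.symm⟩
        · rintro ⟨x', rfl, h1⟩
          exact h1.symm
      · simp [On]
      · simp [On]
    rw [this, card_insert_of_notMem, card_image_of_injective, card_univ]
    · intro x x' hx
      simp only [Sum.inl.injEq, Prod.mk.injEq] at hx
      exact hx.1
    · simp
  · have : ln add (Sum.inr none) = univ.image fun s : Option K => (Sum.inr s : V K) := by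
      ext P
      rw [mem_ln, mem_image]
      rcases P with (⟨x, y⟩ | (_ | s))
      · simp [On]
      · simp [On]
      · simp [On]
    rw [this, card_image_of_injective _ Sum.inr_injective, card_univ, Fintype.card_option]
  · have : ln add (Sum.inr (some a)) =
        insert (Sum.inr none) (univ.image fun y : K => (Sum.inl (a, y) : V K)) := by
      ext P
      rw [mem_ln, mem_insert, mem_image]
      rcases P with (⟨x, y⟩ | (_ | s))
      · simp only [On, mem_univ, true_and, reduceCtorEq, false_or, Sum.inl.injEq, Prod.mk.injEq]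
        constructor
        · intro h1
          exact ⟨y, h1.symm, rfl⟩
        · rintro ⟨x', h1, -⟩
          exact h1.symm
      · simp [On]
      · simp [On]
    rw [this, card_insert_of_notMem, card_image_of_injective, card_univ]
    · intro x x' hx
      simp only [Sum.inl.injEq, Prod.mk.injEq] at hx
      exact hx.2
    · simp

theorem plane (h : Neofield add) : Plane (Fintype.card K) (lines add) := by
  refine ⟨?_, ?_, ?_⟩
  · rw [Fintype.card_sum, Fintype.card_prod, Fintype.card_option]
    ring
  · intro b hb
    obtain ⟨g, rfl⟩ := mem_lines.1 hb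
    exact card_ln h g
  · intro x y hxy
    obtain ⟨l, ⟨h1, h2⟩, h3⟩ := join h x y hxy
    refine ⟨ln add l, ⟨mem_lines.2 ⟨_, rfl⟩, mem_ln.2 h1, mem_ln.2 h2⟩, ?_⟩
    rintro b ⟨hb, hx, hy⟩
    obtain ⟨g, rfl⟩ := mem_lines.1 hb
    rw [h3 g ⟨mem_ln.1 hx, mem_ln.1 hy⟩]

theorem Neofield.cl (h : Neofield add) {a b c : K} (e : add a c = add b c) : a = b :=
  (h.lr c (add b c)).unique e rfl

theorem par_inj (h : Neofield add) : Function.Injective (par add) := by
  have g0 : ∀ a : K, a ≠ 0 → a⁻¹ ≠ 0 := fun a ha => inv_ne_zero ha
  rintro (_ | a) (_ | b) hab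
  · rfl
  · exfalso
    simp only [par] at hab
    split_ifs at hab with h1 h2
    simp only [Sum.inl.injEq, Prod.mk.injEq] at hab
    exact g0 b h1 hab.1.symm
  · exfalso
    simp only [par] at hab
    split_ifs at hab with h1 h2
    simp only [Sum.inl.injEq, Prod.mk.injEq] at hab
    exact g0 a h1 hab.1
  · simp only [par] at hab
    by_cases h1 : a = 0
    · rw [if_pos h1] at hab
      by_cases h2 : b = 0
      · rw [h1, h2]
      rw [if_neg h2] at hab
      by_cases h3 : add b 1 = 0
      · rw [if_pos h3] at hab
        simp at hab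
      · rw [if_neg h3] at hab
        simp at hab
    rw [if_neg h1] at hab
    by_cases h2 : b = 0
    · rw [if_pos h2] at hab
      by_cases h3 : add a 1 = 0
      · rw [if_pos h3] at hab
        simp at hab
      · rw [if_neg h3] at hab
        simp at hab
    rw [if_neg h2] at hab
    by_cases h3 : add a 1 = 0
    · by_cases h4 : add b 1 = 0
      · congr 1
        exact h.cl (h3.trans h4.symm)
      · rw [if_pos h3, if_neg h4] at hab
        simp at hab
    · by_cases h4 : add b 1 = 0
      · rw [if_neg h3, if_pos h4] at hab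
        simp at hab
      · rw [if_neg h3, if_neg h4] at hab
        have h5 := (Prod.ext_iff.1 (Sum.inl_injective hab)).1
        rw [inv_inj.1 h5]

/-- generic point -/
theorem on_par (l : V K) {a : K} (h1 : a ≠ 0) (h2 : add a 1 ≠ 0) :
    On add (par add (some a)) l ↔ On add (Sum.inl (a⁻¹, (add a 1)⁻¹)) l := by
  simp only [par]
  rw [if_neg h1, if_neg h2]

theorem on_par0 (l : V K) : On add (par add (some 0)) l ↔ On add (Sum.inr (some 0)) l := by
  simp [par]

theorem on_pare (l : V K) {a : K} (h1 : a ≠ 0) (h2 : add a 1 = 0) :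
    On add (par add (some a)) l ↔ On add (Sum.inr none) l := by
  simp only [par]
  rw [if_neg h1, if_pos h2]

/-- from a bound for the parameters -/
theorem card_le {l : V K} {s t : Option K}
    (h : ∀ u, On add (par add u) l → u = s ∨ u = t) : (ln add l ∩ ov add).card ≤ 2 := by
  have : ln add l ∩ ov add ⊆ {par add s, par add t} := by
    intro P hP
    rw [mem_inter, mem_ln, ov, mem_image] at hP
    obtain ⟨hP, u, -, rfl⟩ := hP
    rw [mem_insert, mem_singleton]
    rcases h u hP with rfl | rfl
    · left; rfl
    · right; rfl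
  exact (card_le_card this).trans card_le_two

/-- the second solution -/
theorem generic (h : Neofield add) {m k a c : K} (hm : m ≠ 0) (hk : k ≠ 0) (ha : a ≠ 0)
    (ha1 : add a 1 ≠ 0) (hc : c ≠ 0) (hc1 : add c 1 ≠ 0)
    (h1 : (add a 1)⁻¹ = add (a⁻¹ * m) k) (h2 : (add c 1)⁻¹ = add (c⁻¹ * m) k) (hac : a ≠ c) :
    c = m * k⁻¹ * a⁻¹ := by
  -- `e = m / (k c)`, `f = 1 / (k (c + 1))`, then `f = e + 1`
  have e1 : (add c 1)⁻¹ * k⁻¹ = add (c⁻¹ * m * k⁻¹) 1 := by
    rw [h2, h.ds, mul_inv_cancel₀ hk]
  have e2 : (add a 1)⁻¹ * k⁻¹ = add (a⁻¹ * m * k⁻¹) 1 := by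
    rw [h1, h.ds, mul_inv_cancel₀ hk]
  -- the line through `(a, a + 1)` and `(c, c + 1)`
  have u1 := h.pl a c (add a 1) (add c 1) hac
  have hA : add a 1 = add (a * 1) 1 ∧ add c 1 = add (c * 1) 1 := by
    rw [mul_one, mul_one]
    exact ⟨rfl, rfl⟩
  set M := (add a 1) * (add c 1) * k * (c⁻¹ * m * k⁻¹) * a⁻¹ with hM
  set C := (add a 1) * (add c 1) * k with hC
  have hB1 : add a 1 = add (a * M) C := by
    have : a * M = (c⁻¹ * m * k⁻¹) * C := by
      rw [hM, hC]
      field_simp
    rw [this]
    have h3 : add (c⁻¹ * m * k⁻¹ * C) C = add (c⁻¹ * m * k⁻¹) 1 * C := by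
      rw [h.ds, one_mul]
    rw [h3, ← e1, hC]
    field_simp
  have hB2 : add c 1 = add (c * M) C := by
    have : c * M = (a⁻¹ * m * k⁻¹) * C := by
      rw [hM, hC]
      field_simp
    rw [this]
    have h3 : add (a⁻¹ * m * k⁻¹ * C) C = add (a⁻¹ * m * k⁻¹) 1 * C := by
      rw [h.ds, one_mul]
    rw [h3, ← e2, hC]
    field_simp
  have h5 := u1.unique (y₁ := ((1 : K), (1 : K))) (y₂ := (M, C)) hA ⟨hB1, hB2⟩
  have h6 : (1 : K) = M := (Prod.ext_iff.1 h5).1
  have h7 : (1 : K) = C := (Prod.ext_iff.1 h5).2
  have h8 : M = C * (c⁻¹ * m * k⁻¹) * a⁻¹ := rfl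
  rw [← h6, ← h7, one_mul] at h8
  have h9 : c = c * (c⁻¹ * m * k⁻¹ * a⁻¹) := by rw [← h8, mul_one]
  rw [h9]
  field_simp

theorem oval (h : Neofield add) : Oval (Fintype.card K) (lines add) (ov add) := by
  refine ⟨?_, ?_⟩
  · rw [ov, card_image_of_injective _ (par_inj h), card_univ, Fintype.card_option]
  · intro b hb
    obtain ⟨l, rfl⟩ := mem_lines.1 hb
    have h01 : add (0 : K) 1 = 1 := h.zl 1
    rcases l with (⟨m, k⟩ | (_ | x))
    · by_cases hm : m = 0
      · subst hm
        -- the line `y = k`
        by_cases hk : k = 0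
        · subst hk
          apply card_le (s := some 0) (t := none)
          rintro (_ | a) ha
          · right; rfl
          · left
            by_contra hcon
            have ha0 : a ≠ 0 := fun e => hcon (by rw [e])
            by_cases h1 : add a 1 = 0
            · rw [on_pare _ ha0 h1] at ha
              exact ha
            · rw [on_par _ ha0 h1] at ha
              simp only [On, mul_zero, h.zr] at ha
              exact inv_ne_zero h1 ha
        · obtain ⟨c, hc, hu⟩ := h.lr 1 k⁻¹
          apply card_le (s := some 0) (t := some c)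
          rintro (_ | a) ha
          · exfalso
            simp only [par, On, mul_zero, h.zl] at ha
            exact hk ha.symm
          · by_cases ha0 : a = 0
            · left; rw [ha0]
            right
            by_cases h1 : add a 1 = 0
            · rw [on_pare _ ha0 h1] at ha
              exact ha.elim
            · rw [on_par _ ha0 h1] at ha
              simp only [On, mul_zero, h.zl] at ha
              rw [hu a (by rw [← ha, inv_inv])]
      · by_cases hk : k = 0
        · subst hk
          by_cases he : ∃ a, a ≠ 0 ∧ add a 1 ≠ 0 ∧ On add (par add (some a)) (Sum.inl (m, 0))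
          · obtain ⟨a, ha0, ha1, ha⟩ := he
            rw [on_par _ ha0 ha1] at ha
            simp only [On, h.zr] at ha
            apply card_le (s := none) (t := some a)
            rintro (_ | c) hc
            · left; rfl
            right
            by_cases hc0 : c = 0
            · rw [hc0, on_par0] at hc
              simp only [On] at hc
              exact (hm hc.symm).elim
            by_cases hc1 : add c 1 = 0
            · rw [on_pare _ hc0 hc1] at hc
              exact hc.elim
            rw [on_par _ hc0 hc1] at hc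
            simp only [On, h.zr] at hc
            by_contra hcon
            have hca : c ≠ a := fun e => hcon (by rw [e])
            have q : ∀ a : K, a ≠ 0 → (add a 1)⁻¹ = a⁻¹ * m → add a 1 = a * m⁻¹ := by
              intro a _ e
              rw [← inv_inv (add a 1), e, mul_inv, inv_inv]
            have u1 := h.pl c a (add c 1) (add a 1) hca
            have h5 := u1.unique (y₁ := ((1 : K), (1 : K))) (y₂ := (m⁻¹, 0))
              ⟨by simp only [mul_one], by simp only [mul_one]⟩
              ⟨by simp only [h.zr]; exact q c hc0 hc, by simp only [h.zr]; exact q a ha0 ha⟩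
            exact one_ne_zero (Prod.ext_iff.1 h5).2
          · apply card_le (s := none) (t := none)
            rintro (_ | c) hc
            · left; rfl
            exfalso
            by_cases hc0 : c = 0
            · rw [hc0, on_par0] at hc
              simp only [On] at hc
              exact (hm hc.symm).elim
            by_cases hc1 : add c 1 = 0
            · rw [on_pare _ hc0 hc1] at hc
              exact hc.elim
            exact he ⟨c, hc0, hc1, hc⟩
        · by_cases he : ∃ a, a ≠ 0 ∧ add a 1 ≠ 0 ∧ On add (par add (some a)) (Sum.inl (m, k))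
          · obtain ⟨a, ha0, ha1, ha⟩ := he
            rw [on_par _ ha0 ha1] at ha
            simp only [On] at ha
            apply card_le (s := some a) (t := some (m * k⁻¹ * a⁻¹))
            rintro (_ | c) hc
            · exfalso
              simp only [par, On, zero_mul, h.zl] at hc
              exact hk hc.symm
            by_cases hc0 : c = 0
            · rw [hc0, on_par0] at hc
              simp only [On] at hc
              exact (hm hc.symm).elim
            by_cases hc1 : add c 1 = 0
            · rw [on_pare _ hc0 hc1] at hc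
              exact hc.elim
            rw [on_par _ hc0 hc1] at hc
            simp only [On] at hc
            by_cases hac : a = c
            · left; rw [hac]
            · right
              rw [generic h hm hk ha0 ha1 hc0 hc1 ha hc hac]
          · apply card_le (s := none) (t := none)
            rintro (_ | c) hc
            · left; rfl
            exfalso
            by_cases hc0 : c = 0
            · rw [hc0, on_par0] at hc
              simp only [On] at hc
              exact (hm hc.symm).elim
            by_cases hc1 : add c 1 = 0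
            · rw [on_pare _ hc0 hc1] at hc
              exact hc.elim
            exact he ⟨c, hc0, hc1, hc⟩
    · obtain ⟨e, he, hu⟩ := h.lr 1 (0 : K)
      apply card_le (s := some 0) (t := some e)
      rintro (_ | a) ha
      · exact ha.elim
      · by_cases ha0 : a = 0
        · left; rw [ha0]
        right
        by_cases h1 : add a 1 = 0
        · rw [hu a h1]
        · rw [on_par _ ha0 h1] at ha
          exact ha.elim
    · obtain ⟨e, he, hu⟩ := h.lr 1 (0 : K)
      by_cases hx : x = 0
      · subst hx
        apply card_le (s := none) (t := some e)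
        rintro (_ | a) ha
        · left; rfl
        right
        by_cases ha0 : a = 0
        · rw [ha0, on_par0] at ha
          exact ha.elim
        by_cases h1 : add a 1 = 0
        · rw [hu a h1]
        · rw [on_par _ ha0 h1] at ha
          simp only [On] at ha
          exact (inv_ne_zero ha0 ha).elim
      · apply card_le (s := some x⁻¹) (t := some e)
        rintro (_ | a) ha
        · simp only [par, On] at ha
          exact (hx ha.symm).elim
        by_cases ha0 : a = 0
        · rw [ha0, on_par0] at ha
          exact ha.elim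
        by_cases h1 : add a 1 = 0
        · right; rw [hu a h1]
        · rw [on_par _ ha0 h1] at ha
          simp only [On] at ha
          left
          rw [← ha, inv_inv]

theorem mem_ov_iff (h : Neofield add) {P : V K} : P ∈ ov add ↔
    P = Sum.inl (0, 0) ∨ P = Sum.inr (some 0) ∨ P = Sum.inr none ∨
      ∃ x y, x ≠ 0 ∧ y ≠ 0 ∧ P = Sum.inl (x, y) ∧ y⁻¹ = add x⁻¹ 1 := by
  rw [ov, mem_image]
  constructor
  · rintro ⟨(_ | a), -, rfl⟩
    · left; rfl
    right
    by_cases h0 : a = 0
    · left
      simp [par, h0]
    right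
    by_cases h1 : add a 1 = 0
    · left
      simp [par, h0, h1]
    right
    refine ⟨a⁻¹, (add a 1)⁻¹, inv_ne_zero h0, inv_ne_zero h1, ?_, ?_⟩
    · simp [par, h0, h1]
    · rw [inv_inv, inv_inv]
  · rintro (rfl | rfl | rfl | ⟨x, y, hx, hy, rfl, hxy⟩)
    · exact ⟨none, mem_univ _, rfl⟩
    · exact ⟨some 0, mem_univ _, by simp [par]⟩
    · obtain ⟨e, he, hu⟩ := h.lr 1 (0 : K)
      have h0 : e ≠ 0 := by
        intro h0
        rw [h0] at he
        have : add (0 : K) 1 = 1 := h.zl 1
        rw [this] at he
        exact one_ne_zero he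
      exact ⟨some e, mem_univ _, by simp only [par]; rw [if_neg h0, if_pos he]⟩
    · refine ⟨some x⁻¹, mem_univ _, ?_⟩
      simp only [par]
      rw [if_neg (inv_ne_zero hx), if_neg (by rw [← hxy]; exact inv_ne_zero hy), inv_inv, ← hxy,
        inv_inv]

end Pool.Agent.U37.NF
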